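import Pool.Agent.Helper98.DISC.GoalsC

/-! # Project DISC, packet KG: gluing of chains -/

set_option autoImplicit false

noncomputable section

namespace Pool.Agent.Helper58.DISC

open Pool.Agent.Helper98.DISC

theorem rot (a b c : ℂ) : cr a b c = cr b c a := by
  unfold cr
  ring

theorem rot2 (a b c : ℂ) : cr a b c = cr c a b := by
  unfold cr
  ring

/-- scalar product -/
def dt (d u : ℂ) : ℝ := u.re * d.re + u.im * d.im

theorem nsq (u : ℂ) : ‖u‖ ^ 2 = u.re * u.re + u.im * u.im := by
  rw [Complex.sq_norm, Complex.normSq_apply]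

/-- points of the closed disc are in the half plane of the tangent -/
theorem dt_pos {c w p : ℂ} {R : ℝ} (hw : ‖w - c‖ = R) (hp : ‖p - c‖ ≤ R) (hne : p ≠ w) :
    0 < dt (c - w) (p - w) := by
  have h1 : ‖p - c‖ ^ 2 ≤ ‖w - c‖ ^ 2 := by
    rw [hw]
    exact pow_le_pow_left₀ (norm_nonneg _) hp 2
  have h2 : 0 < ‖p - w‖ ^ 2 := by
    have : 0 < ‖p - w‖ := norm_pos_iff.2 (sub_ne_zero.2 hne)
    positivity
  rw [nsq, nsq] at h1
  rw [nsq] at h2
  unfold dt
  simp only [Complex.sub_re, Complex.sub_im] at h1 h2 ⊢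
  nlinarith

theorem cr_id (d w q p r : ℂ) : dt d (p - w) * cr w q r =
    dt d (r - w) * cr w q p + dt d (q - w) * cr w p r := by
  unfold dt cr
  simp only [Complex.sub_re, Complex.sub_im]
  ring

/-- transitivity of the order of the slopes -/
theorem tr_le {c w q p r : ℂ} {R : ℝ} (hw : ‖w - c‖ = R) (hq : ‖q - c‖ ≤ R) (hp : ‖p - c‖ ≤ R)
    (hr : ‖r - c‖ ≤ R) (nq : q ≠ w) (np : p ≠ w) (nr : r ≠ w) (h1 : 0 ≤ cr w q p)
    (h2 : 0 ≤ cr w p r) : 0 ≤ cr w q r := by
  have e := cr_id (c - w) w q p r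
  have a1 := dt_pos hw hq nq
  have a2 := dt_pos hw hp np
  have a3 := dt_pos hw hr nr
  have b1 := mul_nonneg a3.le h1
  have b2 := mul_nonneg a1.le h2
  by_contra hc
  have := mul_neg_of_pos_of_neg a2 (not_le.1 hc)
  linarith

theorem tr_lt {c w q p r : ℂ} {R : ℝ} (hw : ‖w - c‖ = R) (hq : ‖q - c‖ ≤ R) (hp : ‖p - c‖ ≤ R)
    (hr : ‖r - c‖ ≤ R) (nq : q ≠ w) (np : p ≠ w) (nr : r ≠ w) (h1 : 0 ≤ cr w q p)
    (h2 : 0 ≤ cr w p r) (h3 : 0 < cr w q p ∨ 0 < cr w p r) : 0 < cr w q r := by
  have e := cr_id (c - w) w q p r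
  have a1 := dt_pos hw hq nq
  have a2 := dt_pos hw hp np
  have a3 := dt_pos hw hr nr
  have b1 := mul_nonneg a3.le h1
  have b2 := mul_nonneg a1.le h2
  by_contra hc
  have h4 := mul_nonpos_of_nonneg_of_nonpos a2.le (not_lt.1 hc)
  rcases h3 with h | h
  · have := mul_pos a3 h
    linarith
  · have := mul_pos a1 h
    linarith

/-- a convex combination of points of the closed disc, one of them in the open disc -/
theorem conv_lt {R α β γ δ : ℝ} {u v x y : ℂ} (hα : 0 ≤ α) (hβ : 0 ≤ β) (hγ : 0 < γ)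
    (hs : α + β + γ = δ) (hu : ‖u‖ ≤ R) (hv : ‖v‖ ≤ R) (hx : ‖x‖ < R)
    (he : (δ : ℂ) * y = α * u + β * v + γ * x) : ‖y‖ < R := by
  have hδ : 0 < δ := by linarith
  have h1 : ‖(δ : ℂ) * y‖ = δ * ‖y‖ := by
    rw [norm_mul, Complex.norm_real, Real.norm_of_nonneg hδ.le]
  have h2 : ‖(α : ℂ) * u + β * v + γ * x‖ ≤ α * ‖u‖ + β * ‖v‖ + γ * ‖x‖ := by
    refine (norm_add_le _ _).trans (add_le_add ((norm_add_le _ _).trans (add_le_add ?_ ?_)) ?_)
    · rw [norm_mul, Complex.norm_real, Real.norm_of_nonneg hα]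
    · rw [norm_mul, Complex.norm_real, Real.norm_of_nonneg hβ]
    · rw [norm_mul, Complex.norm_real, Real.norm_of_nonneg hγ.le]
  have h3 := mul_le_mul_of_nonneg_left hu hα
  have h4 := mul_le_mul_of_nonneg_left hv hβ
  have h5 := mul_lt_mul_of_pos_left hx hγ
  have h6 : δ * ‖y‖ < δ * R := by
    rw [← h1, he]
    have h7 : δ * R = α * R + β * R + γ * R := by rw [← hs]; ring
    linarith
  exact lt_of_mul_lt_mul_left h6 hδ.le

/-- the main step, left side -/
theorem core {c a w p q r : ℂ} {R : ℝ} (ha : ‖a - c‖ = R) (hw : ‖w - c‖ ≤ R) (hr : ‖r - c‖ ≤ R)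
    (hp : ‖p - c‖ < R) (h1 : 0 < cr a p q) (h2 : 0 < cr p q w) (h3 : 0 < cr p w r)
    (h4 : 0 < cr a p w) (h5 : 0 < cr a w r) : 0 < cr p q r := by
  by_contra hc
  have hc' := not_lt.1 hc
  have e1 : cr p q w * cr p a r = cr a p q * cr p w r - cr p q r * cr a p w := by
    unfold cr
    ring
  have b1 := mul_pos h1 h3
  have b2 := mul_nonpos_of_nonpos_of_nonneg hc' h4.le
  have h6 : 0 < cr p a r := by
    by_contra h
    have := mul_nonpos_of_nonneg_of_nonpos h2.le (not_lt.1 h)
    linarith
  have h7 := conv_lt (R := R) (α := cr p a r) (β := cr a p w) (γ := cr a w r) (δ := cr p w r)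
    (u := w - c) (v := r - c) (x := p - c) (y := a - c) h6.le h4.le h5 (by unfold cr; ring)
    hw hr hp (by
      apply Complex.ext
      · simp only [Complex.add_re, Complex.mul_re, Complex.ofReal_re, Complex.ofReal_im,
          Complex.sub_re, Complex.sub_im, zero_mul, sub_zero]
        unfold cr
        ring
      · simp only [Complex.add_im, Complex.mul_im, Complex.ofReal_re, Complex.ofReal_im,
          Complex.sub_re, Complex.sub_im, zero_mul, add_zero]
        unfold cr
        ring)
  linarith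

/-- the main step, right side -/
theorem core' {c b w p q r : ℂ} {R : ℝ} (hb : ‖b - c‖ = R) (hw : ‖w - c‖ ≤ R) (hp : ‖p - c‖ ≤ R)
    (hr : ‖r - c‖ < R) (h1 : 0 < cr q r b) (h2 : 0 < cr w q r) (h3 : 0 < cr p w r)
    (h4 : 0 < cr w r b) (h5 : 0 < cr p w b) : 0 < cr p q r := by
  by_contra hc
  have hc' := not_lt.1 hc
  have e1 : cr w q r * cr r p b = cr q r b * cr p w r - cr p q r * cr w r b := by
    unfold cr
    ring
  have b1 := mul_pos h1 h3
  have b2 := mul_nonpos_of_nonpos_of_nonneg hc' h4.le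
  have h6 : 0 < cr r p b := by
    by_contra h
    have := mul_nonpos_of_nonneg_of_nonpos h2.le (not_lt.1 h)
    linarith
  have h7 := conv_lt (R := R) (α := cr r p b) (β := cr w r b) (γ := cr p w b) (δ := cr p w r)
    (u := w - c) (v := p - c) (x := r - c) (y := b - c) h6.le h4.le h5 (by unfold cr; ring)
    hw hp hr (by
      apply Complex.ext
      · simp only [Complex.add_re, Complex.mul_re, Complex.ofReal_re, Complex.ofReal_im,
          Complex.sub_re, Complex.sub_im, zero_mul, sub_zero]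
        unfold cr
        ring
      · simp only [Complex.add_im, Complex.mul_im, Complex.ofReal_re, Complex.ofReal_im,
          Complex.sub_re, Complex.sub_im, zero_mul, add_zero]
        unfold cr
        ring)
  linarith

theorem kg : S_KG := by
  intro ι _ _ c a b R z j ha hb hw naw nbw hz hL hR
  set w := z j with hwdef
  have La : ∀ i, i < j → 0 < cr a (z i) w := fun i h => hL.ab ⟨i, h⟩
  have La2 : ∀ i k, i < k → k < j → 0 < cr a (z i) (z k) := fun i k h1 h2 =>
    hL.a2 ⟨i, h1.trans h2⟩ ⟨k, h2⟩ h1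
  have Lb2 : ∀ i k, i < k → k < j → 0 < cr (z i) (z k) w := fun i k h1 h2 =>
    hL.b2 ⟨i, h1.trans h2⟩ ⟨k, h2⟩ h1
  have Lp3 : ∀ i k l, i < k → k < l → l < j → 0 < cr (z i) (z k) (z l) := fun i k l h1 h2 h3 =>
    hL.p3 ⟨i, (h1.trans h2).trans h3⟩ ⟨k, h2.trans h3⟩ ⟨l, h3⟩ h1 h2
  have Ra : ∀ i, j < i → 0 < cr w (z i) b := fun i h => hR.ab ⟨i, h⟩
  have Ra2 : ∀ i k, j < i → i < k → 0 < cr w (z i) (z k) := fun i k h1 h2 =>
    hR.a2 ⟨i, h1⟩ ⟨k, h1.trans h2⟩ h2
  have Rb2 : ∀ i k, j < i → i < k → 0 < cr (z i) (z k) b := fun i k h1 h2 =>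
    hR.b2 ⟨i, h1⟩ ⟨k, h1.trans h2⟩ h2
  have Rp3 : ∀ i k l, j < i → i < k → k < l → 0 < cr (z i) (z k) (z l) := fun i k l h1 h2 h3 =>
    hR.p3 ⟨i, h1⟩ ⟨k, h1.trans h2⟩ ⟨l, (h1.trans h2).trans h3⟩ h2 h3
  have zle : ∀ i, i ≠ j → ‖z i - c‖ ≤ R := fun i hi => (hz i hi).le
  have zne : ∀ i, i ≠ j → ∀ u : ℂ, ‖u - c‖ = R → z i ≠ u := by
    intro i hi u hu h
    have h1 := hz i hi
    rw [h, hu] at h1
    exact lt_irrefl _ h1
  -- slopes at `w`
  have S1 : 0 ≤ cr w b a → ∀ i k, i < j → j < k → 0 < cr (z i) w (z k) := by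
    intro hba i k hi hk
    rw [rot2]
    have g1 : 0 < cr (z k) w (z i) ∨ 0 < cr w (z k) (z i) := by
      right
      have g2 : 0 ≤ cr w (z k) a := tr_le hw (zle k hk.ne') hb.le ha.le (zne k hk.ne' w hw) nbw naw
        (Ra k hk).le hba
      have g3 : 0 < cr w a (z i) := by
        rw [rot]
        exact La i hi
      exact tr_lt hw (zle k hk.ne') ha.le (zle i hi.ne) (zne k hk.ne' w hw) naw (zne i hi.ne w hw)
        g2 g3.le (Or.inr g3)
    rcases g1 with g | g
    · exfalso
      have g2 : 0 ≤ cr w (z k) a := tr_le hw (zle k hk.ne') hb.le ha.le (zne k hk.ne' w hw) nbw naw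
        (Ra k hk).le hba
      have g3 : 0 < cr w a (z i) := by
        rw [rot]
        exact La i hi
      have g4 := tr_lt hw (zle k hk.ne') ha.le (zle i hi.ne) (zne k hk.ne' w hw) naw
        (zne i hi.ne w hw) g2 g3.le (Or.inr g3)
      have g5 : cr (z k) w (z i) = -cr w (z k) (z i) := by unfold cr; ring
      linarith
    · have g5 : cr (z k) (z i) w = cr w (z k) (z i) := rot2 _ _ _
      rw [g5]
      exact g
  have S2 : 0 ≤ cr w b a → ∀ k, j < k → 0 < cr a w (z k) := by
    intro hba k hk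
    have g := tr_lt hw (zle k hk.ne') hb.le ha.le (zne k hk.ne' w hw) nbw naw (Ra k hk).le hba
      (Or.inl (Ra k hk))
    rw [rot]
    exact g
  have S3 : 0 ≤ cr w b a → ∀ i, i < j → 0 < cr (z i) w b := by
    intro hba i hi
    have g3 : 0 < cr w a (z i) := by
      rw [rot]
      exact La i hi
    have g := tr_lt hw hb.le ha.le (zle i hi.ne) nbw naw (zne i hi.ne w hw) hba g3.le (Or.inr g3)
    rw [rot]
    exact g
  -- the triples of points of `z`
  have P3 : 0 ≤ cr w b a → ∀ i k l, i < k → k < l → 0 < cr (z i) (z k) (z l) := by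
    intro hba i k l hik hkl
    rcases lt_trichotomy l j with hl | hl | hl
    · exact Lp3 i k l hik hkl hl
    · subst hl
      exact Lb2 i k hik hkl
    · rcases lt_trichotomy k j with hk | hk | hk
      · have hi := hik.trans hk
        exact core ha hw.le (zle l hl.ne') (hz i hi.ne) (La2 i k hik hk) (Lb2 i k hik hk)
          (S1 hba i l hi hl) (La i hi) (S2 hba l hl)
      · subst hk
        exact S1 hba i l hik hl
      · rcases lt_trichotomy i j with hi | hi | hi
        · exact core' hb hw.le (zle i hi.ne) (hz l hl.ne') (Rb2 k l hk hkl) (Ra2 k l hk hkl)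
            (S1 hba i l hi hl) (Ra l hl) (S3 hba i hi)
        · subst hi
          exact Ra2 k l hik hkl
        · exact Rp3 i k l hi hik hkl
  -- slopes at `a`
  have T1 : 0 ≤ cr w b a → ∀ i k, i < j → j < k → 0 < cr a (z i) (z k) := by
    intro hba i k hi hk
    exact tr_lt ha (zle i hi.ne) hw.le (zle k hk.ne') (zne i hi.ne a ha) naw.symm
      (zne k hk.ne' a ha) (La i hi).le (S2 hba k hk).le (Or.inl (La i hi))
  refine ⟨fun h0 => ?_, fun hab => ?_⟩
  · have hba : 0 < cr w b a := by
      rw [← rot]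
      exact h0
    have nab : a ≠ b := by
      intro h
      rw [h] at hba
      have : cr w b b = 0 := by unfold cr; ring
      linarith
    refine ⟨?_, ?_, ?_, P3 hba.le⟩
    · intro i
      rcases lt_trichotomy i j with hi | hi | hi
      · exact tr_lt ha (zle i hi.ne) hw.le hb.le (zne i hi.ne a ha) naw.symm nab.symm
          (La i hi).le h0.le (Or.inl (La i hi))
      · subst hi
        exact h0
      · -- slopes at `b`
        have g1 : 0 < cr b a w := by
          rw [rot]
          exact h0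
        have g2 : 0 < cr b w (z i) := by
          rw [rot]
          exact Ra i hi
        have g := tr_lt hb ha.le hw.le (zle i hi.ne') nab nbw.symm (zne i hi.ne' b hb) g1.le g2.le
          (Or.inl g1)
        rw [rot2]
        exact g
    · intro i k hik
      rcases lt_trichotomy k j with hk | hk | hk
      · exact La2 i k hik hk
      · subst hk
        exact La i hik
      · rcases lt_trichotomy i j with hi | hi | hi
        · exact T1 hba.le i k hi hk
        · subst hi
          exact S2 hba.le k hk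
        · exact core' hb hw.le ha.le (hz k hk.ne') (Rb2 i k hi hik) (Ra2 i k hi hik)
            (S2 hba.le k hk) (Ra k hk) h0
    · intro i k hik
      rcases lt_trichotomy k j with hk | hk | hk
      · have hi := hik.trans hk
        exact core ha hw.le hb.le (hz i hi.ne) (La2 i k hik hk) (Lb2 i k hik hk)
          (S3 hba.le i hi) (La i hi) h0
      · subst hk
        exact S3 hba.le i hik
      · rcases lt_trichotomy i j with hi | hi | hi
        · have g1 : 0 < cr b (z i) w := by
            rw [rot]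
            exact S3 hba.le i hi
          have g2 : 0 < cr b w (z k) := by
            rw [rot]
            exact Ra k hk
          have g := tr_lt hb (zle i hi.ne) hw.le (zle k hk.ne') (zne i hi.ne b hb) nbw.symm
            (zne k hk.ne' b hb) g1.le g2.le (Or.inl g1)
          rw [rot2]
          exact g
        · subst hi
          exact Ra k hik
        · exact Rb2 i k hi hik
  · subst hab
    have hba : 0 ≤ cr w a a := by
      have : cr w a a = 0 := by unfold cr; ring
      exact this.ge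
    refine ⟨?_, P3 hba⟩
    intro i k hik
    rcases lt_trichotomy k j with hk | hk | hk
    · exact La2 i k hik hk
    · subst hk
      exact La i hik
    · rcases lt_trichotomy i j with hi | hi | hi
      · exact T1 hba i k hi hk
      · subst hi
        exact S2 hba k hk
      · rw [rot]
        exact Rb2 i k hi hik

end Pool.Agent.Helper58.DISC
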